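import Pool.Graph.R_seed8.H44.Dom2.Final

/-!
# The bipartite double cover of a subdivided multigraph (helper file)
-/

set_option autoImplicit false

namespace Pool.Agent.H61.Dbip

open Finset Pool.Agent.H44.Dom2

/-- There is no small core. -/
theorem card_core_ge {N m g : ℕ} (e : Fin m × Bool → Fin N × Fin N) (hN : g ≤ N)
    (S : Finset (SV (Fin N) (kk g e))) (hcore : Core (kk g e) (en e) S) (hS : S.Nonempty) :
    g ≤ S.card := by
  classical
  by_contra hcon
  push Not at hcon
  obtain ⟨a, ha⟩ := hS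
  -- all edges met are good
  have hgood : ∀ b ∈ coreE S, ∃ b' : Fin m × Bool, b = .inl b' ∧ b' ∉ BadE g e := by
    intro b hb
    have h1 := k_le_card hcore hb
    rcases b with b' | w
    · refine ⟨b', rfl, fun h => ?_⟩
      have h2 : kk g e (.inl b') = g := by simp [kk, h]
      omega
    · have h2 : kk g e (.inr w) = g := rfl
      omega
  have hne : (coreE S).Nonempty := by
    rcases a with u | ⟨b, i⟩
    · obtain ⟨x, hx, y, hy, -, h1, -⟩ := hcore _ ha
      rcases x with v | ⟨b, i⟩
      · exact absurd h1 (adj_ll _ _)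
      · exact ⟨b, mem_coreE.2 ⟨i, hx⟩⟩
    · exact ⟨b, mem_coreE.2 ⟨i, ha⟩⟩
  set F := (coreE S).toLeft with hF
  have hFc : F.card = (coreE S).card := by
    have h1 : (coreE S).toRight = ∅ := by
      rw [eq_empty_iff_forall_notMem]
      intro w hw
      rw [mem_toRight] at hw
      obtain ⟨b', hb', -⟩ := hgood _ hw
      cases hb'
    have h2 := card_toLeft_add_card_toRight (u := coreE S)
    rw [h1, card_empty, add_zero] at h2
    exact h2
  have hFS := card_coreE_le S
  have hVE := card_coreV_le hcore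
  have hFle : F.card ≤ (univ : Finset (Fin N)).card := by
    rw [card_univ, Fintype.card_fin]; omega
  obtain ⟨U, hU1, -, hU2⟩ := exists_subsuperset_card_eq (subset_univ (coreV S))
    (by omega : (coreV S).card ≤ F.card) hFle
  have hpos := card_pos.2 hne
  have hconf : (F, U) ∈ Conf g e := by
    unfold Conf
    rw [mem_filter]
    refine ⟨mem_univ _, by simp only; omega, by simp only; omega, hU2, ?_⟩
    intro b hb
    simp only at hb
    rw [hF, mem_toLeft] at hb
    obtain ⟨i, hi⟩ := mem_coreE.1 hb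
    have h1 := core_ends hcore _ hi
    exact ⟨hU1 (mem_coreV.2 h1.1), hU1 (mem_coreV.2 h1.2)⟩
  obtain ⟨b, hb⟩ := hne
  obtain ⟨b', rfl, hb'⟩ := hgood b hb
  apply hb'
  unfold BadE
  rw [mem_biUnion]
  exact ⟨(F, U), hconf, by rw [hF, mem_toLeft]; exact hb⟩

/-- The bipartite double cover of a graph. -/
def DC {V : Type} (G : SimpleGraph V) : SimpleGraph (V × Bool) where
  Adj x y := G.Adj x.1 y.1 ∧ x.2 ≠ y.2
  symm := ⟨fun _ _ h => ⟨h.1.symm, h.2.symm⟩⟩
  loopless := ⟨fun _ h => h.2 rfl⟩

lemma dc_adj {V : Type} (G : SimpleGraph V) (x y : V × Bool) :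
    (DC G).Adj x y ↔ G.Adj x.1 y.1 ∧ x.2 ≠ y.2 := Iff.rfl

lemma dc_colorable {V : Type} (G : SimpleGraph V) : (DC G).Colorable 2 :=
  ⟨SimpleGraph.Coloring.mk (fun x => if x.2 then (0 : Fin 2) else 1) (by
    rintro ⟨x, s⟩ ⟨y, t⟩ ⟨-, h⟩
    simp only at h ⊢
    cases s <;> cases t <;> simp_all)⟩

/-- A cycle has at most as many vertices as edges. -/
lemma cycle_card' {V : Type} [DecidableEq V] {G : SimpleGraph V} {a : V} (c : G.Walk a a)
    (hc : c.IsCycle) : c.support.toFinset.card ≤ c.length := by
  have h1 : c.support = a :: c.support.tail := (SimpleGraph.Walk.cons_tail_support c).symm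
  have h2 : a ∈ c.support.tail := SimpleGraph.Walk.end_mem_tail_support (fun h => hc.not_nil h)
  have h3 : c.support.toFinset = c.support.tail.toFinset := by
    conv_lhs => rw [h1]
    rw [List.toFinset_cons, insert_eq_of_mem (List.mem_toFinset.2 h2)]
  rw [h3]
  refine (List.toFinset_card_le _).trans ?_
  rw [List.length_tail, SimpleGraph.Walk.length_support]
  simp

/-- The girth of the double cover. -/
theorem dc_girth {N m g : ℕ} (e : Fin m × Bool → Fin N × Fin N) (hN : g ≤ N) :
    (g : ℕ∞) ≤ (DC (SG (kk g e) (en e))).egirth := by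
  classical
  rw [SimpleGraph.le_egirth]
  intro a c hc
  by_contra hcon
  push Not at hcon
  have hcl : c.length < g := by exact_mod_cast hcon
  set S2 := c.support.toFinset with hS2
  have hcard := cycle_card' c hc
  rw [← hS2] at hcard
  set S := S2.image Prod.fst with hS
  have hcore : Core (kk g e) (en e) S := by
    intro v hv
    rw [hS, mem_image] at hv
    obtain ⟨v2, hv2, rfl⟩ := hv
    rw [hS2, List.mem_toFinset] at hv2
    have h2 := hc.ncard_neighborSet_toSubgraph_eq_two hv2
    rw [Set.ncard_eq_two] at h2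
    obtain ⟨x, y, hne, hxy⟩ := h2
    have hx : x ∈ c.toSubgraph.neighborSet v2 := by rw [hxy]; simp
    have hy : y ∈ c.toSubgraph.neighborSet v2 := by rw [hxy]; simp
    have hx1 : c.toSubgraph.Adj v2 x := hx
    have hy1 : c.toSubgraph.Adj v2 y := hy
    have hxa := hx1.adj_sub
    have hya := hy1.adj_sub
    have hmem : ∀ z, c.toSubgraph.Adj v2 z → z.1 ∈ S := by
      intro z hz
      rw [hS, mem_image]
      refine ⟨z, ?_, rfl⟩
      rw [hS2, List.mem_toFinset, ← SimpleGraph.Walk.mem_verts_toSubgraph]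
      exact hz.snd_mem
    refine ⟨x.1, hmem x hx1, y.1, hmem y hy1, ?_, hxa.1, hya.1⟩
    intro h
    apply hne
    refine Prod.ext h ?_
    have h3 : v2.2 ≠ x.2 := hxa.2
    have h4 : v2.2 ≠ y.2 := hya.2
    revert h3 h4
    cases v2.2 <;> cases x.2 <;> cases y.2 <;> simp
  have hne : S.Nonempty := by
    rw [hS, image_nonempty]
    exact ⟨a, by rw [hS2, List.mem_toFinset]; exact c.start_mem_support⟩
  have h1 := card_core_ge e hN S hcore hne
  have h2 : S.card ≤ S2.card := card_image_le
  omega

open Classical in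
/-- Degrees in the double cover. -/
lemma dc_degree {V : Type} [Fintype V] (G : SimpleGraph V) (x : V × Bool) :
    (DC G).degree x = G.degree x.1 := by
  rw [← SimpleGraph.card_neighborFinset_eq_degree, ← SimpleGraph.card_neighborFinset_eq_degree]
  refine Finset.card_bij (fun y _ => y.1) ?_ ?_ ?_
  · intro y hy
    rw [SimpleGraph.mem_neighborFinset] at hy ⊢
    exact hy.1
  · intro y hy z hz h
    rw [SimpleGraph.mem_neighborFinset] at hy hz
    refine Prod.ext h ?_
    have h3 : x.2 ≠ y.2 := hy.2
    have h4 : x.2 ≠ z.2 := hz.2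
    revert h3 h4
    cases x.2 <;> cases y.2 <;> cases z.2 <;> simp
  · intro y hy
    rw [SimpleGraph.mem_neighborFinset] at hy
    refine ⟨(y, !x.2), ?_, rfl⟩
    rw [SimpleGraph.mem_neighborFinset]
    exact ⟨hy, by cases x.2 <;> simp⟩

open Classical in
/-- The minimum degree of the double cover. -/
theorem dc_minDegree {V : Type} [Fintype V] [Nonempty V] (G : SimpleGraph V) :
    (DC G).minDegree = G.minDegree := by
  apply le_antisymm
  · obtain ⟨v, hv⟩ := G.exists_minimal_degree_vertex
    rw [hv, ← dc_degree G (v, true)]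
    exact SimpleGraph.minDegree_le_degree _ _
  · obtain ⟨v, hv⟩ := (DC G).exists_minimal_degree_vertex
    rw [hv, dc_degree]
    exact SimpleGraph.minDegree_le_degree _ _

end Pool.Agent.H61.Dbip
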