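import Pool.Graph.R_seed8.H44.Dom2.Final

/-!
# Quasi-random edge lists, all rectangles (helper file)
-/

set_option autoImplicit false

namespace Pool.Agent.H61.Dbip

open Finset Pool.Agent.H44.Dom2

/-- Edge lists which are quasi-random on all rectangles and have few bad edges exist. -/
theorem exists_rect (ε : ℝ) (hε : 0 < ε) (hε' : ε ≤ 1 / 2) (g : ℕ) :
    ∃ (N m : ℕ) (e : Fin m × Bool → Fin N × Fin N), 0 < m ∧ g ≤ N ∧ 0 < N ∧
      (∀ A B : Finset (Fin N),
        ((A.card : ℝ) / N * ((B.card : ℝ) / N) - ε) * m ≤ cntE e false (A ×ˢ B)) ∧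
      (∀ A B : Finset (Fin N),
        (cntE e true (A ×ˢ B) : ℝ) ≤ ((A.card : ℝ) / N * ((B.card : ℝ) / N) + ε) * m) ∧
      ((BadE g e).card : ℝ) ≤ ε * m := by
  obtain ⟨C, hC⟩ := exists_nat_gt (3 / ε ^ 2)
  have hC0 : (0 : ℝ) < C := lt_trans (by positivity) hC
  have hCε : 3 ≤ ε ^ 2 * C := by
    rw [div_lt_iff₀ (by positivity)] at hC
    linarith
  obtain ⟨N0, hN0⟩ := exists_nat_gt (g * (4 * KK C g + 4) / (ε * C))
  set N := N0 + g + 3 with hN
  have hNpos : 0 < N := by omega
  have hNR : (0 : ℝ) < N := by exact_mod_cast hNpos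
  set m := C * N with hm
  have hmR : (m : ℝ) = C * N := by rw [hm]; push_cast; ring
  set T : ℝ := ((N : ℝ) ^ 2) ^ (2 * m) with hT
  have hTpos : 0 < T := by positivity
  -- the functional
  let V1 (e : Fin m × Bool → Fin N × Fin N) : ℝ := ∑ A : Finset (Fin N) × Finset (Fin N),
    if ε * m < (-1) * ((cntE e false (A.1 ×ˢ A.2) : ℝ) - (A.1 ×ˢ A.2).card / (N : ℝ) ^ 2 * m)
      then (1 : ℝ) else 0
  let V2 (e : Fin m × Bool → Fin N × Fin N) : ℝ := ∑ A : Finset (Fin N) × Finset (Fin N),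
    if ε * m < 1 * ((cntE e true (A.1 ×ˢ A.2) : ℝ) - (A.1 ×ˢ A.2).card / (N : ℝ) ^ 2 * m)
      then (1 : ℝ) else 0
  have hcardE : ((univ : Finset (Fin m × Bool → Fin N × Fin N)).card : ℝ) = T := by
    rw [card_univ, Fintype.card_fun, Fintype.card_prod, Fintype.card_prod, Fintype.card_fin,
      Fintype.card_fin, Fintype.card_bool, hT]
    push_cast
    rw [← sq, mul_comm m 2]
  have hexp : (2 : ℝ) ^ N * 2 ^ N * Real.exp (-(ε ^ 2 * m)) ≤ 1 / 8 := by
    have h1 : 3 * (N : ℝ) ≤ ε ^ 2 * m := by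
      rw [hmR, ← mul_assoc]
      gcongr
    have h2 : (2 : ℝ) ^ N ≤ Real.exp N := by
      rw [← mul_one (N : ℝ), Real.exp_nat_mul]
      apply pow_le_pow_left₀ (by norm_num)
      have := Real.add_one_le_exp (1 : ℝ)
      linarith
    have h3 : (3 : ℝ) ≤ N := by
      have : 3 ≤ N := by omega
      exact_mod_cast this
    calc (2 : ℝ) ^ N * 2 ^ N * Real.exp (-(ε ^ 2 * m)) ≤
          Real.exp N * Real.exp N * Real.exp (-(3 * N)) := by
          apply mul_le_mul (mul_le_mul h2 h2 (by positivity) (Real.exp_pos _).le) _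
            (Real.exp_pos _).le (by positivity)
          exact Real.exp_le_exp.2 (by linarith)
      _ = Real.exp (-N) := by rw [← Real.exp_add, ← Real.exp_add]; congr 1; ring
      _ ≤ Real.exp (-3) := Real.exp_le_exp.2 (by linarith)
      _ ≤ 1 / 8 := by
          rw [Real.exp_neg, one_div]
          apply inv_anti₀ (by norm_num)
          have h4 : Real.exp 3 = Real.exp 1 ^ 3 := by rw [← Real.exp_nat_mul]; norm_num
          have h5 := Real.add_one_le_exp (1 : ℝ)
          rw [h4]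
          calc (8 : ℝ) = 2 ^ 3 := by norm_num
            _ ≤ Real.exp 1 ^ 3 := pow_le_pow_left₀ (by norm_num) (by linarith) 3
  have hcardA : ((univ : Finset (Finset (Fin N) × Finset (Fin N))).card : ℝ) = 2 ^ N * 2 ^ N := by
    rw [card_univ, Fintype.card_prod, Fintype.card_finset, Fintype.card_fin]
    push_cast; ring
  have hV1 : ∑ e : Fin m × Bool → Fin N × Fin N, V1 e ≤ T * (1 / 8) := by
    simp only [V1]
    rw [sum_comm]
    calc _ ≤ ∑ A : Finset (Fin N) × Finset (Fin N), T * Real.exp (-(ε ^ 2 * m)) := by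
          apply sum_le_sum
          intro A _
          exact tail hNpos false (A.1 ×ˢ A.2) ε (-1) hε hε' (by simp)
      _ = T * (2 ^ N * 2 ^ N * Real.exp (-(ε ^ 2 * m))) := by
          rw [sum_const, nsmul_eq_mul, hcardA]
          ring
      _ ≤ T * (1 / 8) := mul_le_mul_of_nonneg_left hexp hTpos.le
  have hV2 : ∑ e : Fin m × Bool → Fin N × Fin N, V2 e ≤ T * (1 / 8) := by
    simp only [V2]
    rw [sum_comm]
    calc _ ≤ ∑ A : Finset (Fin N) × Finset (Fin N), T * Real.exp (-(ε ^ 2 * m)) := by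
          apply sum_le_sum
          intro A _
          exact tail hNpos true (A.1 ×ˢ A.2) ε 1 hε hε' (by simp)
      _ = T * (2 ^ N * 2 ^ N * Real.exp (-(ε ^ 2 * m))) := by
          rw [sum_const, nsmul_eq_mul, hcardA]
          ring
      _ ≤ T * (1 / 8) := mul_le_mul_of_nonneg_left hexp hTpos.le
  have hKK := KK_nonneg C g
  have hV3 : ∑ e : Fin m × Bool → Fin N × Fin N, ((Conf g e).card : ℝ) / (4 * KK C g + 4) ≤
      T * (1 / 4) := by
    rw [← sum_div, div_le_iff₀ (by positivity)]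
    have := sum_conf (C := C) (g := g) hNpos
    refine this.trans ?_
    rw [mul_assoc]
    apply mul_le_mul_of_nonneg_left _ hTpos.le
    linarith
  have hne : (univ : Finset (Fin m × Bool → Fin N × Fin N)).Nonempty :=
    ⟨fun _ => (⟨0, hNpos⟩, ⟨0, hNpos⟩), mem_univ _⟩
  have hsum : ∑ e : Fin m × Bool → Fin N × Fin N,
      (V1 e + V2 e + ((Conf g e).card : ℝ) / (4 * KK C g + 4)) ≤
      ∑ e : Fin m × Bool → Fin N × Fin N, (1 / 2 : ℝ) := by
    rw [sum_add_distrib, sum_add_distrib, sum_const, nsmul_eq_mul, hcardE]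
    linarith
  obtain ⟨e, _, he⟩ := exists_le_of_sum_le hne hsum
  have n1 : 0 ≤ V1 e := sum_nonneg fun A _ => by split_ifs <;> norm_num
  have n2 : 0 ≤ V2 e := sum_nonneg fun A _ => by split_ifs <;> norm_num
  have n3 : 0 ≤ ((Conf g e).card : ℝ) / (4 * KK C g + 4) := by positivity
  have hCN : 0 < C := by exact_mod_cast hC0
  refine ⟨N, m, e, Nat.mul_pos hCN hNpos, by omega, hNpos, ?_, ?_, ?_⟩
  · intro A B
    by_contra hcon
    push Not at hcon
    have h1 : ε * m < (-1) * ((cntE e false (A ×ˢ B) : ℝ) -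
        (A ×ˢ B).card / (N : ℝ) ^ 2 * m) := by
      rw [card_product]
      push_cast
      have : (A.card : ℝ) * B.card / (N : ℝ) ^ 2 = (A.card : ℝ) / N * ((B.card : ℝ) / N) := by
        field_simp
      rw [this]
      linarith
    have h2 : (1 : ℝ) ≤ V1 e := by
      have h3 := single_le_sum (f := fun A : Finset (Fin N) × Finset (Fin N) =>
        if ε * m < (-1) * ((cntE e false (A.1 ×ˢ A.2) : ℝ) - (A.1 ×ˢ A.2).card / (N : ℝ) ^ 2 * m)
          then (1 : ℝ) else 0) (fun A _ => by split_ifs <;> norm_num) (mem_univ (A, B))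
      simp only [h1, if_true] at h3
      exact h3
    linarith
  · intro A B
    by_contra hcon
    push Not at hcon
    have h1 : ε * m < 1 * ((cntE e true (A ×ˢ B) : ℝ) - (A ×ˢ B).card / (N : ℝ) ^ 2 * m) := by
      rw [card_product]
      push_cast
      have : (A.card : ℝ) * B.card / (N : ℝ) ^ 2 = (A.card : ℝ) / N * ((B.card : ℝ) / N) := by
        field_simp
      rw [this]
      linarith
    have h2 : (1 : ℝ) ≤ V2 e := by
      have h3 := single_le_sum (f := fun A : Finset (Fin N) × Finset (Fin N) =>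
        if ε * m < 1 * ((cntE e true (A.1 ×ˢ A.2) : ℝ) - (A.1 ×ˢ A.2).card / (N : ℝ) ^ 2 * m)
          then (1 : ℝ) else 0) (fun A _ => by split_ifs <;> norm_num) (mem_univ (A, B))
      simp only [h1, if_true] at h3
      exact h3
    linarith
  · have h1 : ((Conf g e).card : ℝ) ≤ 4 * KK C g + 4 := by
      have : ((Conf g e).card : ℝ) / (4 * KK C g + 4) ≤ 1 := by linarith
      rwa [div_le_one (by positivity)] at this
    have h2 : ((BadE g e).card : ℝ) ≤ (Conf g e).card * g := by exact_mod_cast card_BadE g e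
    have h3 : g * (4 * KK C g + 4) ≤ ε * m := by
      rw [div_lt_iff₀ (by positivity)] at hN0
      have h4 : (N0 : ℝ) ≤ N := by
        have : N0 ≤ N := by omega
        exact_mod_cast this
      rw [hmR]
      calc (g : ℝ) * (4 * KK C g + 4) ≤ N0 * (ε * C) := hN0.le
        _ ≤ N * (ε * C) := by gcongr
        _ = _ := by ring
    have hg0 : (0 : ℝ) ≤ g := Nat.cast_nonneg _
    calc ((BadE g e).card : ℝ) ≤ (Conf g e).card * g := h2
      _ ≤ (4 * KK C g + 4) * g := mul_le_mul_of_nonneg_right h1 hg0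
      _ = g * (4 * KK C g + 4) := mul_comm _ _
      _ ≤ ε * m := h3

end Pool.Agent.H61.Dbip
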